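import Mathlib
import Pool.Agent.U722.FF.Stm2

/-!
Project FS, package BSI: the base generator of a Baumslag-Solitar group has infinite order.
-/

set_option autoImplicit false

namespace Pool.Agent.U723.FSP.BSI

open U722.FF

lemma addRight_zpow (m : ℤ) (z : ℚ) : ((Equiv.addRight (1 : ℚ) : Equiv.Perm ℚ) ^ m) z = z + m := by
  induction m using Int.induction_on generalizing z with
  | zero => simp
  | succ i ih =>
    rw [zpow_add_one, Equiv.Perm.mul_apply, ih]
    simp only [Equiv.coe_addRight]
    push_cast; ring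
  | pred i ih =>
    rw [zpow_sub_one, Equiv.Perm.mul_apply, ih]
    have : ((Equiv.addRight (1 : ℚ) : Equiv.Perm ℚ)⁻¹) z = z - 1 := by
      rw [Equiv.Perm.inv_eq_iff_eq]
      simp
    rw [this]
    push_cast; ring

theorem t_BSI : S_BSI := by
  intro p q hp hq k hk h
  have hp' : (p : ℚ) ≠ 0 := by exact_mod_cast hp
  have hq' : (q : ℚ) ≠ 0 := by exact_mod_cast hq
  have hqp : (q / p : ℚ) ≠ 0 := div_ne_zero hq' hp'
  let A : Equiv.Perm ℚ := Equiv.addRight 1
  let T : Equiv.Perm ℚ := Equiv.mulLeft₀ (q / p : ℚ) hqp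
  let f : Bool → Equiv.Perm ℚ := fun b => if b then T else A
  have hrel : ∀ r ∈ ({FreeGroup.of true * FreeGroup.of false ^ p * (FreeGroup.of true)⁻¹ *
      (FreeGroup.of false ^ q)⁻¹} : Set (FreeGroup Bool)), FreeGroup.lift f r = 1 := by
    intro r hr
    rw [Set.mem_singleton_iff] at hr
    subst hr
    simp only [map_mul, map_inv, map_zpow, FreeGroup.lift_apply_of, f]
    simp only [if_true, Bool.false_eq_true, if_false]
    rw [mul_inv_eq_one, mul_inv_eq_iff_eq_mul]
    ext z
    simp only [Equiv.Perm.mul_apply]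
    have h1 : (A ^ p) z = z + p := addRight_zpow p z
    have h2 : (A ^ q) (T z) = T z + q := addRight_zpow q (T z)
    rw [h1, h2]
    change (q / p : ℚ) * (z + p) = (q / p : ℚ) * z + q
    field_simp
  have h1 : PresentedGroup.toGroup hrel (PresentedGroup.of false) = A :=
    PresentedGroup.toGroup.of hrel
  have h2 : A ^ k = 1 := by
    have h4 := map_pow (PresentedGroup.toGroup hrel) (PresentedGroup.of false) k
    have h5 : PresentedGroup.toGroup hrel ((PresentedGroup.of false) ^ k) = 1 := by
      have h6 := congrArg (PresentedGroup.toGroup hrel) h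
      exact h6.trans (map_one _)
    rw [h1] at h4
    exact h4.symm.trans h5
  have h3 : (A ^ (k : ℤ)) 0 = 0 + ((k : ℤ) : ℚ) := addRight_zpow k 0
  rw [zpow_natCast, h2, Equiv.Perm.one_apply, zero_add] at h3
  have h7 : (k : ℚ) = 0 := by
    have := h3.symm
    push_cast at this
    exact this
  have h8 : k = 0 := by exact_mod_cast h7
  omega

end Pool.Agent.U723.FSP.BSI
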